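import Mathlib

namespace Pool.Agent.Results.MP_5cfb27_co.Bounded

/-- Tie-breaking conventions: friendly or antagonistic. -/
inductive Conv
  | F
  | A

/-- The candidate pair produced by removing `s` from heap `h` in setting `c v d`. -/
def cand (o : Conv → Conv → ℕ → ℕ × ℕ) (c d : Conv) (h s : ℕ) : ℕ × ℕ :=
  (s + (o d c (h - s)).2, (o d c (h - s)).1)

/-- The mover with convention `c` weakly prefers the pair `p` to the pair `q`. -/
def Prefers (c : Conv) (p q : ℕ × ℕ) : Prop :=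
  q.1 ≤ p.1 ∧ (q.1 = p.1 → (c = Conv.F → q.2 ≤ p.2) ∧ (c = Conv.A → p.2 ≤ q.2))

/-- `o` satisfies the backward-induction equations of the game with subtraction set `S`. -/
def IsOutcome (S : Finset ℕ) (o : Conv → Conv → ℕ → ℕ × ℕ) : Prop :=
  ∀ c d h, ((∀ s ∈ S, h < s) → o c d h = (0, 0)) ∧
    ((∃ s ∈ S, s ≤ h) → ∃ s ∈ S, s ≤ h ∧ o c d h = cand o c d h s ∧
      ∀ t ∈ S, t ≤ h → Prefers c (cand o c d h s) (cand o c d h t))

theorem exists_best (c : Conv) (T : Finset ℕ) (hT : T.Nonempty) (g : ℕ → ℕ × ℕ) :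
    ∃ s ∈ T, ∀ t ∈ T, Prefers c (g s) (g t) := by
  classical
  obtain ⟨a, ha, hmax⟩ := T.exists_max_image (fun s => (g s).1) hT
  have hne : (T.filter fun s => (g s).1 = (g a).1).Nonempty := ⟨a, by simp [ha]⟩
  cases c with
  | F =>
    obtain ⟨b, hb, hb2⟩ := Finset.exists_max_image _ (fun s => (g s).2) hne
    rw [Finset.mem_filter] at hb
    refine ⟨b, hb.1, fun t ht => ⟨by rw [hb.2]; exact hmax t ht, fun e => ⟨fun _ => ?_, fun h => ?_⟩⟩⟩
    · exact hb2 t (Finset.mem_filter.2 ⟨ht, e.trans hb.2⟩)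
    · cases h
  | A =>
    obtain ⟨b, hb, hb2⟩ := Finset.exists_min_image _ (fun s => (g s).2) hne
    rw [Finset.mem_filter] at hb
    refine ⟨b, hb.1, fun t ht => ⟨by rw [hb.2]; exact hmax t ht, fun e => ⟨fun h => ?_, fun _ => ?_⟩⟩⟩
    · cases h
    · exact hb2 t (Finset.mem_filter.2 ⟨ht, e.trans hb.2⟩)

/-- generic existence of solutions of a strong recursion given by a relation -/
theorem exists_rec {α : Type} [Inhabited α] (R : ℕ → (ℕ → α) → α → Prop)
    (hex : ∀ h f, ∃ a, R h f a)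
    (hloc : ∀ h f g a, (∀ k < h, f k = g k) → R h f a → R h g a) :
    ∃ f : ℕ → α, ∀ h, R h f (f h) := by
  classical
  choose ch hch using hex
  let F : (h : ℕ) → ((k : ℕ) → k < h → α) → α := fun h r =>
    ch h (fun k => if hk : k < h then r k hk else default)
  let f : ℕ → α := fun h => Nat.strongRec (motive := fun _ => α) F h
  refine ⟨f, fun h => ?_⟩
  have e : f h = ch h (fun k => if k < h then f k else default) := by
    show Nat.strongRec (motive := fun _ => α) F h = _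
    rw [Nat.strongRec_eq]
    simp only [F, f, dite_eq_ite]
  rw [e]
  refine hloc h _ _ _ (fun k hk => ?_) (hch h _)
  simp [hk]

theorem exists_outcome (S : Finset ℕ) (hS : ∀ s ∈ S, 1 ≤ s) : ∃ o, IsOutcome S o := by
  classical
  have := exists_rec (α := Conv → Conv → ℕ × ℕ)
    (fun h f a => ∀ c d, ((∀ s ∈ S, h < s) → a c d = (0, 0)) ∧
      ((∃ s ∈ S, s ≤ h) → ∃ s ∈ S, s ≤ h ∧ a c d = cand (fun c d k => f k c d) c d h s ∧
        ∀ t ∈ S, t ≤ h → Prefers c (cand (fun c d k => f k c d) c d h s)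
          (cand (fun c d k => f k c d) c d h t))) ?_ ?_
  · obtain ⟨f, hf⟩ := this
    exact ⟨fun c d k => f k c d, fun c d h => hf h c d⟩
  · intro h f
    by_cases hl : ∃ s ∈ S, s ≤ h
    · have hne : (S.filter (· ≤ h)).Nonempty := by
        obtain ⟨s, h1, h2⟩ := hl
        exact ⟨s, by simp [h1, h2]⟩
      have := fun c d => exists_best c _ hne (cand (fun c d k => f k c d) c d h)
      choose s hs1 hs2 using this
      refine ⟨fun c d => cand (fun c d k => f k c d) c d h (s c d), fun c d => ⟨fun h0 => ?_, fun _ => ?_⟩⟩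
      · obtain ⟨s, h1, h2⟩ := hl
        exact absurd (h0 s h1) (by omega)
      · have := Finset.mem_filter.1 (hs1 c d)
        exact ⟨s c d, this.1, this.2, rfl, fun t ht hth => hs2 c d t (Finset.mem_filter.2 ⟨ht, hth⟩)⟩
    · exact ⟨fun _ _ => (0, 0), fun c d => ⟨fun _ => rfl, fun h0 => absurd h0 hl⟩⟩
  · intro h f g a hfg hR c d
    refine ⟨(hR c d).1, fun hl => ?_⟩
    obtain ⟨s, h1, h2, h3, h4⟩ := (hR c d).2 hl
    have e : ∀ t ∈ S, t ≤ h → cand (fun c d k => f k c d) c d h t = cand (fun c d k => g k c d) c d h t := by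
      intro t ht hth
      have := hS t ht
      simp only [cand]
      rw [hfg (h - t) (by omega)]
    refine ⟨s, h1, h2, by rw [h3, e s h1 h2], fun t ht hth => ?_⟩
    rw [← e s h1 h2, ← e t ht hth]
    exact h4 t ht hth

/-- security levels -/
theorem exists_sec (S : Finset ℕ) (hS : ∀ s ∈ S, 1 ≤ s) : ∃ f : ℕ → ℕ × ℕ, ∀ h,
    ((∀ s ∈ S, h < s) → f h = (0, 0)) ∧
    ((∃ s ∈ S, s ≤ h) → (∃ s ∈ S, s ≤ h ∧ (f h).1 = s + (f (h - s)).2) ∧
      (∃ s ∈ S, s ≤ h ∧ (f h).2 = (f (h - s)).1) ∧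
      ∀ t ∈ S, t ≤ h → t + (f (h - t)).2 ≤ (f h).1 ∧ (f h).2 ≤ (f (h - t)).1) := by
  classical
  refine exists_rec (α := ℕ × ℕ) (fun h f a => ((∀ s ∈ S, h < s) → a = (0, 0)) ∧
    ((∃ s ∈ S, s ≤ h) → (∃ s ∈ S, s ≤ h ∧ a.1 = s + (f (h - s)).2) ∧
      (∃ s ∈ S, s ≤ h ∧ a.2 = (f (h - s)).1) ∧
      ∀ t ∈ S, t ≤ h → t + (f (h - t)).2 ≤ a.1 ∧ a.2 ≤ (f (h - t)).1)) ?_ ?_
  · intro h f
    by_cases hl : ∃ s ∈ S, s ≤ h
    · have hne : (S.filter (· ≤ h)).Nonempty := by
        obtain ⟨s, h1, h2⟩ := hl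
        exact ⟨s, by simp [h1, h2]⟩
      obtain ⟨a, ha, ha2⟩ := Finset.exists_max_image _ (fun s => s + (f (h - s)).2) hne
      obtain ⟨b, hb, hb2⟩ := Finset.exists_min_image _ (fun s => (f (h - s)).1) hne
      rw [Finset.mem_filter] at ha hb
      refine ⟨(a + (f (h - a)).2, (f (h - b)).1), fun h0 => absurd (h0 a ha.1) (by omega), fun _ =>
        ⟨⟨a, ha.1, ha.2, rfl⟩, ⟨b, hb.1, hb.2, rfl⟩, fun t ht hth => ⟨?_, ?_⟩⟩⟩
      · exact ha2 t (Finset.mem_filter.2 ⟨ht, hth⟩)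
      · exact hb2 t (Finset.mem_filter.2 ⟨ht, hth⟩)
    · exact ⟨(0, 0), fun _ => rfl, fun h0 => absurd h0 hl⟩
  · intro h f g a hfg hR
    refine ⟨hR.1, fun hl => ?_⟩
    have e : ∀ t ∈ S, t ≤ h → f (h - t) = g (h - t) := by
      intro t ht hth
      have := hS t ht
      exact hfg _ (by omega)
    obtain ⟨⟨s, h1, h2, h3⟩, ⟨s', h1', h2', h3'⟩, h4⟩ := hR.2 hl
    refine ⟨⟨s, h1, h2, by rw [← e s h1 h2]; exact h3⟩, ⟨s', h1', h2', by rw [← e s' h1' h2']; exact h3'⟩,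
      fun t ht hth => by rw [← e t ht hth]; exact h4 t ht hth⟩

theorem result (S : Finset ℕ) (hne : S.Nonempty) (hS : ∀ s ∈ S, 1 ≤ s) :
    (∃ o, IsOutcome S o) ∧
    ∀ o, IsOutcome S o → ∀ (c d c' d' : Conv) (h : ℕ),
      |((o c' d' h).1 : ℤ) - ((o c d h).1 : ℤ)| ≤ (S.min' hne : ℤ) - 1 ∧
      |((o c' d' h).2 : ℤ) - ((o c d h).2 : ℤ)| ≤ (S.min' hne : ℤ) - 1 := by
  refine ⟨exists_outcome S hS, fun o ho => ?_⟩
  obtain ⟨f, hf⟩ := exists_sec S hS
  have hm := S.min'_mem hne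
  have key : ∀ h, (∀ c d, (f h).1 ≤ (o c d h).1 ∧ (f h).2 ≤ (o c d h).2 ∧
      (o c d h).1 + (o c d h).2 ≤ h) ∧ h + 1 ≤ (f h).1 + (f h).2 + S.min' hne := by
    intro h
    induction h using Nat.strong_induction_on with
    | _ h ih =>
      by_cases hl : ∃ s ∈ S, s ≤ h
      · obtain ⟨⟨a, ha1, ha2, ha3⟩, ⟨b, hb1, hb2, hb3⟩, h4⟩ := (hf h).2 hl
        have ha0 := hS a ha1
        have hb0 := hS b hb1
        refine ⟨fun c d => ?_, ?_⟩
        · obtain ⟨s, h1, h2, h3, h5⟩ := (ho c d h).2 hl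
          have hs0 := hS s h1
          have i1 := (ih (h - a) (by omega)).1 d c
          have i2 := (ih (h - s) (by omega)).1 d c
          have p := (h5 a ha1 ha2).1
          have q := (h4 s h1 h2).2
          rw [h3]
          simp only [cand] at p ⊢
          omega
        · have i1 := (ih (h - b) (by omega)).2
          have q := (h4 b hb1 hb2).1
          omega
      · have h0 : ∀ s ∈ S, h < s := fun s hs => by
          by_contra hc
          exact hl ⟨s, hs, by omega⟩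
        have := h0 _ hm
        refine ⟨fun c d => ?_, by omega⟩
        rw [(hf h).1 h0, (ho c d h).1 h0]
        simp
  intro c d c' d' h
  have k1 := (key h).1 c d
  have k2 := (key h).1 c' d'
  have k3 := (key h).2
  constructor <;> rw [abs_le] <;> constructor <;> omega

end Pool.Agent.Results.MP_5cfb27_co.Bounded
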